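import Mathlib
import Pool.Agent.N1.Poi.Main

/-!
# Finiteness of solution sets, and of the set of Poisson endomorphisms
-/

set_option autoImplicit false
set_option linter.unusedSectionVars false

open MvPolynomial
open scoped TensorProduct

noncomputable section

namespace Pool.Agent.L5helper73.PoiFin

universe u

open Pool.Agent.N1.Poi

/-! ### Ideals of top components -/

section top

variable {σ : Type} {k : Type u} [Field k]

/-- The ideal generated by the top homogeneous components of the members of `J`. -/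
def topIdeal (J : Ideal (MvPolynomial σ k)) : Ideal (MvPolynomial σ k) :=
  Ideal.span {f | ∃ (e : ℕ) (g : MvPolynomial σ k), g ∈ J ∧ g.totalDegree ≤ e ∧
    homogeneousComponent e g = f}

theorem hc_hc (e e' : ℕ) (g : MvPolynomial σ k) :
    homogeneousComponent e (homogeneousComponent e' g) =
      if e = e' then homogeneousComponent e' g else 0 :=
  homogeneousComponent_of_mem (homogeneousComponent_mem e' g)

theorem exists_top {J : Ideal (MvPolynomial σ k)} {f : MvPolynomial σ k} (hf : f ∈ topIdeal J) :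
    ∀ e : ℕ, ∃ g ∈ J, g.totalDegree ≤ e ∧ homogeneousComponent e g = homogeneousComponent e f := by
  refine Submodule.span_induction (p := fun f _ => ∀ e : ℕ, ∃ g ∈ J, g.totalDegree ≤ e ∧
    homogeneousComponent e g = homogeneousComponent e f) ?_ ?_ ?_ ?_ hf
  · rintro _ ⟨e0, g0, hg0, hd, rfl⟩ e
    by_cases h : e = e0
    · subst h
      exact ⟨g0, hg0, hd, by rw [hc_hc, if_pos rfl]⟩
    · exact ⟨0, J.zero_mem, by simp, by rw [hc_hc, if_neg h, map_zero]⟩
  · intro e
    exact ⟨0, J.zero_mem, by simp, rfl⟩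
  · intro x y _ _ hx hy e
    obtain ⟨g, hg, hgd, hge⟩ := hx e
    obtain ⟨g', hg', hgd', hge'⟩ := hy e
    exact ⟨g + g', J.add_mem hg hg', (totalDegree_add _ _).trans (max_le hgd hgd'), by
      rw [map_add, map_add, hge, hge']⟩
  · intro a x _ hx e
    choose g hg hgd hge using hx
    refine ⟨∑ i ∈ Finset.range (a.totalDegree + 1),
      if i ≤ e then homogeneousComponent i a * g (e - i) else 0, ?_, ?_, ?_⟩
    · refine J.sum_mem fun i _ => ?_
      split_ifs
      · exact J.mul_mem_left _ (hg _)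
      · exact J.zero_mem
    · refine (totalDegree_finsetSum _ _).trans (Finset.sup_le fun i _ => ?_)
      split_ifs with h
      · refine (totalDegree_mul _ _).trans ?_
        have h1 := (homogeneousComponent_isHomogeneous i a).totalDegree_le
        have h2 := hgd (e - i)
        omega
      · simp
    · rw [smul_eq_mul, map_sum]
      conv_rhs => rw [← sum_homogeneousComponent a, Finset.sum_mul, map_sum]
      refine Finset.sum_congr rfl fun i _ => ?_
      have hi := homogeneousComponent_isHomogeneous i a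
      split_ifs with h
      · have h1 : e = i + (e - i) := by omega
        have h2 : homogeneousComponent e (homogeneousComponent i a * x) =
            homogeneousComponent i a * homogeneousComponent (e - i) x := by
          conv_lhs => rw [h1]
          rw [mul_comm, add_comm, hc_mul_right x hi, mul_comm]
        have h3 : homogeneousComponent e (homogeneousComponent i a * g (e - i)) =
            homogeneousComponent i a * homogeneousComponent (e - i) (g (e - i)) := by
          conv_lhs => rw [h1]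
          have h4 : i + (e - i) - i = e - i := by omega
          rw [h4, mul_comm, add_comm i, hc_mul_right (g (e - i)) hi, mul_comm]
        rw [h2, h3, hge]
      · rw [map_zero, mul_comm, hc_mul_of_lt x hi (by omega)]

theorem mem_topIdeal_of_degree [Finite σ] {J : Ideal (MvPolynomial σ k)} {N : σ → ℕ}
    (hN : ∀ i, X i ^ N i ∈ topIdeal J) {e : ℕ} (he : (∑ᶠ i, N i) < e) {f : MvPolynomial σ k}
    (hf : f.IsHomogeneous e) : f ∈ topIdeal J := by
  classical
  have := Fintype.ofFinite σ
  rw [finsum_eq_sum_of_fintype] at he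
  rw [f.as_sum]
  refine Ideal.sum_mem _ fun d hd => ?_
  have hdeg : d.degree = e := by
    by_contra h
    exact (mem_support_iff.1 hd) (hf.coeff_eq_zero h)
  obtain ⟨i, hi⟩ : ∃ i, N i ≤ d i := by
    by_contra h
    push Not at h
    have h1 : d.degree = ∑ i, d i := by rw [Finsupp.degree_eq_sum]
    have h2 : ∑ i, d i ≤ ∑ i, N i := Finset.sum_le_sum fun i _ => (h i).le
    omega
  have h1 : monomial d (coeff d f) = monomial (d - Finsupp.single i (N i)) (coeff d f) *
      X i ^ N i := by
    rw [X_pow_eq_monomial, monomial_mul, mul_one]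
    congr 1
    rw [tsub_add_cancel_of_le]
    intro j
    by_cases h : j = i
    · subst h; simpa using hi
    · rw [Finsupp.single_eq_of_ne h]
      exact Nat.zero_le _
  rw [h1]
  exact Ideal.mul_mem_left _ _ (hN i)

theorem exists_small [Finite σ] {J : Ideal (MvPolynomial σ k)} {N : σ → ℕ}
    (hN : ∀ i, X i ^ N i ∈ topIdeal J) : ∀ (m : ℕ) (f : MvPolynomial σ k), f.totalDegree ≤ m →
      ∃ r : MvPolynomial σ k, r.totalDegree ≤ ∑ᶠ i, N i ∧ f - r ∈ J := by
  intro m
  induction m with
  | zero =>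
    intro f hf
    exact ⟨f, hf.trans (Nat.zero_le _), by simp⟩
  | succ m ih =>
    intro f hf
    by_cases h : m + 1 ≤ ∑ᶠ i, N i
    · exact ⟨f, hf.trans h, by simp⟩
    rw [not_le] at h
    have h1 := mem_topIdeal_of_degree hN h (homogeneousComponent_isHomogeneous (m + 1) f)
    obtain ⟨g, hg, hgd, hge⟩ := exists_top h1 (m + 1)
    rw [hc_hc, if_pos rfl] at hge
    have h2 : (f - g).totalDegree ≤ m + 1 := (totalDegree_sub _ _).trans (max_le hf hgd)
    have h3 := totalDegree_sub_hc h2
    rw [map_sub, hge, sub_self, sub_zero] at h3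
    obtain ⟨r, hr, hr'⟩ := ih _ h3
    refine ⟨r, hr, ?_⟩
    have h4 : f - r = f - g - r + g := by ring
    rw [h4]
    exact J.add_mem hr' hg

theorem finite_quot [Finite σ] {J : Ideal (MvPolynomial σ k)}
    (h : ∀ i, (X i : MvPolynomial σ k) ∈ (topIdeal J).radical) :
    Module.Finite k (MvPolynomial σ k ⧸ J) := by
  choose N hN using h
  let D := ∑ᶠ i, N i
  let g : restrictTotalDegree σ k D →ₗ[k] MvPolynomial σ k ⧸ J :=
    (Ideal.Quotient.mkₐ k J).toLinearMap ∘ₗ (restrictTotalDegree σ k D).subtype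
  refine Module.Finite.of_surjective g fun x => ?_
  obtain ⟨f, rfl⟩ := Ideal.Quotient.mkₐ_surjective k J x
  obtain ⟨r, hr, hr'⟩ := exists_small hN _ f le_rfl
  refine ⟨⟨r, (mem_restrictTotalDegree _ _ _).2 hr⟩, ?_⟩
  change Ideal.Quotient.mk J r = Ideal.Quotient.mk J f
  rw [eq_comm, Ideal.Quotient.eq]
  exact hr'

/-- The ideal of the polynomials vanishing on a set of points. -/
def vIdeal (S : Set (σ → k)) : Ideal (MvPolynomial σ k) :=
  ⨅ s ∈ S, RingHom.ker (aeval s : MvPolynomial σ k →ₐ[k] k)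

theorem mem_vIdeal {S : Set (σ → k)} {f : MvPolynomial σ k} :
    f ∈ vIdeal S ↔ ∀ s ∈ S, aeval s f = 0 := by
  simp only [vIdeal, Ideal.mem_iInf, RingHom.mem_ker]

theorem finite_algHom {B : Type u} [CommRing B] [Algebra k B] [Module.Finite k B] :
    Finite (B →ₐ[k] k) :=
  (linearIndependent_toLinearMap k B k).finite

theorem finite_of_top [Finite σ] (S : Set (σ → k))
    (h : ∀ i, (X i : MvPolynomial σ k) ∈ (topIdeal (vIdeal S)).radical) : S.Finite := by
  have := finite_quot h
  have := finite_algHom (k := k) (B := MvPolynomial σ k ⧸ vIdeal S)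
  let g : S → (MvPolynomial σ k ⧸ vIdeal S) →ₐ[k] k := fun s =>
    Ideal.Quotient.liftₐ (vIdeal S) (aeval s.1) fun f hf => mem_vIdeal.1 hf s.1 s.2
  have hg : ∀ (s : S) (i : σ), g s (Ideal.Quotient.mk _ (X i)) = s.1 i := by
    intro s i
    change (aeval s.1) (X i) = s.1 i
    rw [aeval_X]
  have hinj : Function.Injective g := by
    intro s s' hss
    refine Subtype.ext (funext fun i => ?_)
    rw [← hg s i, ← hg s' i, hss]
  have := Finite.of_injective g hinj
  exact Set.toFinite S

end top

/-! ### Reducedness -/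

theorem isReduced_split {k A R C D : Type u} [Field k] [CommRing A] [CommRing R] [CommRing C]
    [CommRing D] [Algebra k A] [Algebra k R] [Algebra k C] [Algebra k D]
    (s : A →ₐ[k] C ⊗[k] D) (hs : Function.Injective s) (h : IsReduced ((R ⊗[k] C) ⊗[k] D)) :
    IsReduced (R ⊗[k] A) := by
  let f : R ⊗[k] A →ₐ[k] (R ⊗[k] C) ⊗[k] D :=
    (Algebra.TensorProduct.assoc k k k R C D).symm.toAlgHom.comp
      (Algebra.TensorProduct.map (AlgHom.id k R) s)
  have hf : Function.Injective f := by
    refine (Algebra.TensorProduct.assoc k k k R C D).symm.injective.comp ?_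
    exact Module.Flat.lTensor_preserves_injective_linearMap (M := R) s.toLinearMap hs
  exact isReduced_of_injective f hf

/-- `R ⊗ ⨂ B i` is reduced when `R` is reduced and the `B i` are geometrically reduced. -/
theorem isReduced_tensor_pi {k : Type u} [Field k] : ∀ (N : ℕ) (ι : Type) [Fintype ι]
    [DecidableEq ι] (B : ι → Type u) [∀ i, CommRing (B i)] [∀ i, Algebra k (B i)],
    (∀ (i : ι) (K : Type u) [Field K] [Algebra k K], IsReduced (K ⊗[k] B i)) →
    Fintype.card ι = N → ∀ (R : Type u) [CommRing R] [Algebra k R] [IsReduced R],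
      IsReduced (R ⊗[k] (⨂[k] i, B i)) := by
  intro N
  induction N with
  | zero =>
    intro ι _ _ B _ _ hB hcard R _ _ _
    have hι : IsEmpty ι := Fintype.card_eq_zero_iff.1 hcard
    have hsurj : ∀ y : ⨂[k] i, B i, ∃ c : k, y = algebraMap k _ c := by
      intro y
      induction y using PiTensorProduct.induction_on with
      | smul_tprod r p =>
        refine ⟨r, ?_⟩
        rw [Algebra.algebraMap_eq_smul_one]
        congr 1
        rw [PiTensorProduct.one_def]
        congr 1
        funext j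
        exact hι.elim j
      | add x y hx hy =>
        obtain ⟨c, rfl⟩ := hx
        obtain ⟨d, rfl⟩ := hy
        exact ⟨c + d, by rw [map_add]⟩
    have hinj : Function.Injective (algebraMap k (⨂[k] i, B i)) := by
      intro c d h
      have h1 := congrArg (PiTensorProduct.isEmptyEquiv (R := k) (s := B) ι) h
      rw [Algebra.algebraMap_eq_smul_one, Algebra.algebraMap_eq_smul_one, map_smul, map_smul,
        PiTensorProduct.one_def, PiTensorProduct.isEmptyEquiv_apply_tprod, smul_eq_mul,
        smul_eq_mul, mul_one, mul_one] at h1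
      exact h1
    have hincl : Function.Injective
        (Algebra.TensorProduct.includeLeft : R →ₐ[k] R ⊗[k] (⨂[k] i, B i)) :=
      Algebra.TensorProduct.includeLeft_injective hinj
    have hx : ∀ x : R ⊗[k] (⨂[k] i, B i), ∃ r : R,
        Algebra.TensorProduct.includeLeft (S := k) (B := ⨂[k] i, B i) r = x := by
      intro x
      induction x with
      | zero => exact ⟨0, map_zero _⟩
      | tmul r y =>
        obtain ⟨c, rfl⟩ := hsurj y
        refine ⟨c • r, ?_⟩
        rw [Algebra.TensorProduct.includeLeft_apply, Algebra.algebraMap_eq_smul_one,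
          TensorProduct.tmul_smul, TensorProduct.smul_tmul']
      | add x y hx hy =>
        obtain ⟨a, rfl⟩ := hx
        obtain ⟨b, rfl⟩ := hy
        exact ⟨a + b, map_add _ _ _⟩
    constructor
    intro x hxn
    obtain ⟨r, rfl⟩ := hx x
    obtain ⟨N, hN⟩ := hxn
    rw [← map_pow, ← map_zero (Algebra.TensorProduct.includeLeft (S := k) (A := R)
      (B := ⨂[k] i, B i))] at hN
    have h1 : r = 0 := IsNilpotent.eq_zero ⟨N, hincl hN⟩
    rw [h1, map_zero]
  | succ N ih =>
    intro ι _ _ B _ _ hB hcard R _ _ _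
    obtain ⟨i⟩ : Nonempty ι := Fintype.card_pos_iff.1 (by omega)
    have h1 : IsReduced (R ⊗[k] Rest k B i) := by
      refine ih {j // j ≠ i} (fun j => B j) (fun j K _ _ => hB j K) ?_ R
      rw [Fintype.card_subtype_compl, Fintype.card_subtype_eq, hcard, Nat.add_sub_cancel]
    have h2 : IsReduced ((R ⊗[k] Rest k B i) ⊗[k] B i) := isReduced_tensor fun K _ _ => hB i K
    exact isReduced_split (split k B i) (split_injective k B i) h2

/-! ### The universal solution -/

section universal

variable {k T : Type u} [Field k] [CommRing T] [Algebra k T] {I : Type}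

/-- Elements of `k[c] ⊗ T` which are homogeneous of degree `D` in the coordinates `c`. -/
def HT (k T : Type u) [Field k] [CommRing T] [Algebra k T] (I : Type) (D : ℕ) :
    Submodule k (MvPolynomial I k ⊗[k] T) :=
  Submodule.span k {y | ∃ (p : MvPolynomial I k) (t : T), p.IsHomogeneous D ∧ p ⊗ₜ[k] t = y}

theorem tmul_mem_HT {D : ℕ} {p : MvPolynomial I k} (hp : p.IsHomogeneous D) (t : T) :
    p ⊗ₜ[k] t ∈ HT k T I D := Submodule.subset_span ⟨p, t, hp, rfl⟩

theorem HT_induction {D : ℕ} {W : Type*} [AddCommGroup W] [Module k W]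
    (g : MvPolynomial I k ⊗[k] T →ₗ[k] W) (V : Submodule k W)
    (h : ∀ (p : MvPolynomial I k) (t : T), p.IsHomogeneous D → g (p ⊗ₜ t) ∈ V)
    {y : MvPolynomial I k ⊗[k] T} (hy : y ∈ HT k T I D) : g y ∈ V := by
  have h1 : HT k T I D ≤ V.comap g := by
    rw [HT, Submodule.span_le]
    rintro _ ⟨p, t, hp, rfl⟩
    exact h p t hp
  exact h1 hy

theorem HT_bil {a b c : ℕ}
    (g : MvPolynomial I k ⊗[k] T →ₗ[k] MvPolynomial I k ⊗[k] T →ₗ[k] MvPolynomial I k ⊗[k] T)
    (h : ∀ (p q : MvPolynomial I k) (s t : T), p.IsHomogeneous a → q.IsHomogeneous b →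
      g (p ⊗ₜ s) (q ⊗ₜ t) ∈ HT k T I c)
    {x y : MvPolynomial I k ⊗[k] T} (hx : x ∈ HT k T I a) (hy : y ∈ HT k T I b) :
    g x y ∈ HT k T I c := by
  refine HT_induction (g x) _ (fun q t hq => ?_) hy
  exact HT_induction (g.flip (q ⊗ₜ t)) _ (fun p s hp => h p q s t hp hq) hx

theorem HT_mul {a b : ℕ} {x y : MvPolynomial I k ⊗[k] T} (hx : x ∈ HT k T I a)
    (hy : y ∈ HT k T I b) : x * y ∈ HT k T I (a + b) := by
  refine HT_bil (LinearMap.mul k _) (fun p q s t hp hq => ?_) hx hy
  rw [LinearMap.mul_apply', Algebra.TensorProduct.tmul_mul_tmul]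
  exact tmul_mem_HT (hp.mul hq) _

theorem HT_one : (1 : MvPolynomial I k ⊗[k] T) ∈ HT k T I 0 :=
  tmul_mem_HT (isHomogeneous_one I k) 1

theorem HT_pow {a : ℕ} {x : MvPolynomial I k ⊗[k] T} (hx : x ∈ HT k T I a) (N : ℕ) :
    x ^ N ∈ HT k T I (N * a) := by
  induction N with
  | zero => simpa using HT_one
  | succ N ih =>
    rw [pow_succ, add_mul, one_mul]
    exact HT_mul ih hx

theorem HT_aeval {x : Fin 3 → MvPolynomial I k ⊗[k] T} (hx : ∀ l, x l ∈ HT k T I 1)
    {D : ℕ} {p : MvPolynomial (Fin 3) k} (hp : p.IsHomogeneous D) :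
    MvPolynomial.aeval x p ∈ HT k T I D := by
  rw [MvPolynomial.aeval_def, MvPolynomial.eval₂_eq']
  refine Submodule.sum_mem _ fun d hd => ?_
  rw [← Algebra.smul_def]
  refine Submodule.smul_mem _ _ ?_
  have h1 : d.degree = D := by
    by_contra h
    exact (mem_support_iff.1 hd) (hp.coeff_eq_zero h)
  have h2 : D = d 0 * 1 + d 1 * 1 + d 2 * 1 := by
    rw [← h1, Finsupp.degree_eq_sum, Fin.sum_univ_three]
    ring
  rw [Fin.prod_univ_three, h2]
  exact HT_mul (HT_mul (HT_pow (hx 0) _) (HT_pow (hx 1) _)) (HT_pow (hx 2) _)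

/-- The extension of a bracket. -/
def brx (I : Type) (br : T →ₗ[k] T →ₗ[k] T) :
    MvPolynomial I k ⊗[k] T →ₗ[k] MvPolynomial I k ⊗[k] T →ₗ[k] MvPolynomial I k ⊗[k] T :=
  TensorProduct.map₂ (LinearMap.mul k (MvPolynomial I k)) br

theorem brx_tmul (br : T →ₗ[k] T →ₗ[k] T) (p q : MvPolynomial I k) (s t : T) :
    brx I br (p ⊗ₜ s) (q ⊗ₜ t) = (p * q) ⊗ₜ br s t := by
  rw [brx, TensorProduct.map₂_apply_tmul, TensorProduct.map_tmul, LinearMap.mul_apply']

theorem HT_brx {br : T →ₗ[k] T →ₗ[k] T} {a b : ℕ} {x y : MvPolynomial I k ⊗[k] T}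
    (hx : x ∈ HT k T I a) (hy : y ∈ HT k T I b) : brx I br x y ∈ HT k T I (a + b) := by
  refine HT_bil (brx I br) (fun p q s t hp hq => ?_) hx hy
  rw [brx_tmul]
  exact tmul_mem_HT (hp.mul hq) _

/-- Evaluation at a point. -/
def ev (T : Type u) [CommRing T] [Algebra k T] (c : I → k) : MvPolynomial I k ⊗[k] T →ₐ[k] T :=
  (Algebra.TensorProduct.lid k T).toAlgHom.comp
    (Algebra.TensorProduct.map (aeval c) (AlgHom.id k T))

theorem ev_tmul (c : I → k) (p : MvPolynomial I k) (t : T) :
    ev T c (p ⊗ₜ t) = aeval c p • t := by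
  simp [ev]

theorem ev_brx (br : T →ₗ[k] T →ₗ[k] T) (c : I → k) (x y : MvPolynomial I k ⊗[k] T) :
    ev T c (brx I br x y) = br (ev T c x) (ev T c y) := by
  induction x with
  | zero => simp
  | add x x' hx hx' => simp only [map_add, LinearMap.add_apply, hx, hx']
  | tmul p s =>
    induction y with
    | zero => simp
    | add y y' hy hy' => simp only [map_add, hy, hy']
    | tmul q t =>
      rw [brx_tmul, ev_tmul, ev_tmul, ev_tmul, map_mul, map_smul, map_smul, LinearMap.smul_apply,
        smul_smul, mul_comm]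

/-- A coordinate with respect to a functional. -/
def co (I : Type) (lam : T →ₗ[k] k) : MvPolynomial I k ⊗[k] T →ₗ[k] MvPolynomial I k :=
  (TensorProduct.rid k (MvPolynomial I k)).toLinearMap ∘ₗ LinearMap.lTensor _ lam

theorem co_tmul (lam : T →ₗ[k] k) (p : MvPolynomial I k) (t : T) :
    co I lam (p ⊗ₜ t) = lam t • p := by
  simp [co]

theorem co_HT (lam : T →ₗ[k] k) {D : ℕ} {y : MvPolynomial I k ⊗[k] T} (hy : y ∈ HT k T I D) :
    (co I lam y).IsHomogeneous D := by
  have h := HT_induction (co I lam) (homogeneousSubmodule I k D) (fun p t hp => ?_) hy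
  · exact h
  · rw [co_tmul]
    exact Submodule.smul_mem _ _ hp

theorem aeval_co (lam : T →ₗ[k] k) (c : I → k) (y : MvPolynomial I k ⊗[k] T) :
    aeval c (co I lam y) = lam (ev T c y) := by
  induction y with
  | zero => simp
  | add y y' hy hy' => simp only [map_add, hy, hy']
  | tmul p t => rw [co_tmul, ev_tmul, map_smul, map_smul, smul_eq_mul, smul_eq_mul, mul_comm]

end universal

/-! ### The finiteness theorem -/

section main

variable {k T : Type u} [Field k] [CommRing T] [Algebra k T] {ι : Type} [Finite ι]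

theorem finite_solutions
    (hT : ∀ (R : Type u) [CommRing R] [Algebra k R] [IsReduced R], IsReduced (R ⊗[k] T))
    (br : T →ₗ[k] T →ₗ[k] T) {Ω : ι → MvPolynomial (Fin 3) k} {n : ι → ℕ} (hn : ∀ j, 4 ≤ n j)
    (hΩ : ∀ j, (Ω j).IsHomogeneous (n j)) (hiso : ∀ j, IsIsolatedSingularity (Ω j))
    (V : Submodule k T) [Module.Finite k V] :
    {x : ι → Fin 3 → T | (∀ j l, x j l ∈ V) ∧
      (∀ j, br (x j 0) (x j 1) = aeval (x j) (pderiv 2 (Ω j))) ∧
      (∀ j, br (x j 1) (x j 2) = aeval (x j) (pderiv 0 (Ω j))) ∧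
      (∀ j, br (x j 2) (x j 0) = aeval (x j) (pderiv 1 (Ω j)))}.Finite := by
  classical
  set E := {x : ι → Fin 3 → T | (∀ j l, x j l ∈ V) ∧
      (∀ j, br (x j 0) (x j 1) = aeval (x j) (pderiv 2 (Ω j))) ∧
      (∀ j, br (x j 1) (x j 2) = aeval (x j) (pderiv 0 (Ω j))) ∧
      (∀ j, br (x j 2) (x j 0) = aeval (x j) (pderiv 1 (Ω j)))} with hE
  let b := Module.finBasis k V
  let m := Module.finrank k V
  let I := ι × Fin 3 × Fin m
  let φ : (I → k) → ι → Fin 3 → T := fun c j l => ∑ α, c (j, l, α) • (b α : T)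
  let S : Set (I → k) := φ ⁻¹' E
  have hES : E ⊆ φ '' S := by
    intro x hx
    let c : I → k := fun i => b.repr ⟨x i.1 i.2.1, hx.1 _ _⟩ i.2.2
    have hc : φ c = x := by
      funext j l
      have h1 := congrArg Subtype.val (b.sum_repr ⟨x j l, hx.1 j l⟩)
      simp only [Submodule.coe_sum, Submodule.coe_smul] at h1
      exact h1
    exact ⟨c, by simpa only [S, Set.mem_preimage, hc] using hx, hc⟩
  refine Set.Finite.subset (Set.Finite.image φ ?_) hES
  -- the universal solution
  let J := vIdeal S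
  let XX : ι → Fin 3 → MvPolynomial I k ⊗[k] T := fun j l => ∑ α, X (j, l, α) ⊗ₜ (b α : T)
  have hXX : ∀ j l, XX j l ∈ HT k T I 1 := fun j l =>
    Submodule.sum_mem _ fun α _ => tmul_mem_HT (isHomogeneous_X k _) _
  have hev : ∀ (c : I → k) (j : ι) (l : Fin 3), ev T c (XX j l) = φ c j l := by
    intro c j l
    simp only [XX, φ, map_sum, ev_tmul, aeval_X]
  have hevp : ∀ (c : I → k) (j : ι) (p : MvPolynomial (Fin 3) k),
      ev T c (aeval (XX j) p) = aeval (φ c j) p := by
    intro c j p
    have h1 : (ev T c).comp (aeval (XX j)) = aeval (φ c j) := by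
      refine algHom_ext fun l => ?_
      rw [AlgHom.comp_apply, aeval_X, aeval_X, hev]
    rw [← h1]
    rfl
  -- coordinates of the derivatives lie in the top ideal
  have key : ∀ (j : ι) (a b c : Fin 3), (∀ x ∈ E, br (x j b) (x j c) = aeval (x j) (pderiv a (Ω j))) →
      ∀ lam : T →ₗ[k] k, co I lam (aeval (XX j) (pderiv a (Ω j))) ∈ topIdeal J := by
    intro j a b c hrel lam
    have hA := co_HT lam (HT_aeval (hXX j) (hΩ j).pderiv (D := n j - 1) (p := pderiv a (Ω j)))
    have hB := co_HT lam (HT_brx (br := br) (hXX j b) (hXX j c))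
    refine Ideal.subset_span ⟨n j - 1, co I lam (aeval (XX j) (pderiv a (Ω j))) -
      co I lam (brx I br (XX j b) (XX j c)), ?_, ?_, ?_⟩
    · refine mem_vIdeal.2 fun s hs => ?_
      rw [map_sub, aeval_co, aeval_co, ev_brx, hevp, hev, hev, hrel _ hs, sub_self]
    · refine (totalDegree_sub _ _).trans (max_le hA.totalDegree_le ?_)
      have := hn j
      exact hB.totalDegree_le.trans (by omega)
    · have := hn j
      rw [map_sub, homogeneousComponent_of_mem hA, if_pos rfl, homogeneousComponent_of_mem hB,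
        if_neg (by omega), sub_zero]
  have key' : ∀ (j : ι) (a : Fin 3) (lam : T →ₗ[k] k),
      co I lam (aeval (XX j) (pderiv a (Ω j))) ∈ topIdeal J := by
    intro j a
    fin_cases a
    · exact key j 0 1 2 fun x hx => hx.2.2.1 j
    · exact key j 1 2 0 fun x hx => hx.2.2.2 j
    · exact key j 2 0 1 fun x hx => hx.2.1 j
  let R := MvPolynomial I k ⧸ (topIdeal J).radical
  have hR : IsReduced R := (Ideal.isRadical_iff_quotient_reduced _).1 (Ideal.radical_isRadical _)
  have hRT := hT R
  let π : MvPolynomial I k →ₐ[k] R := Ideal.Quotient.mkₐ k _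
  let Φ : MvPolynomial I k ⊗[k] T →ₐ[k] R ⊗[k] T := Algebra.TensorProduct.map π (AlgHom.id k T)
  let coR : (T →ₗ[k] k) → R ⊗[k] T →ₗ[k] R := fun lam =>
    (TensorProduct.rid k R).toLinearMap ∘ₗ LinearMap.lTensor _ lam
  have hcoR : ∀ (lam : T →ₗ[k] k) (y : MvPolynomial I k ⊗[k] T), coR lam (Φ y) = π (co I lam y) := by
    intro lam y
    induction y with
    | zero => simp
    | add y y' hy hy' => simp only [map_add, hy, hy']
    | tmul p t =>
      rw [co_tmul, map_smul]
      change (TensorProduct.rid k R) (π p ⊗ₜ lam t) = lam t • π p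
      rw [TensorProduct.rid_tmul]
  have hzero : ∀ y : R ⊗[k] T, (∀ lam : T →ₗ[k] k, coR lam y = 0) → y = 0 := by
    intro y hy
    let bT := Module.Basis.ofVectorSpace k T
    have h1 : ∀ (y : R ⊗[k] T) (i), (Algebra.TensorProduct.basis R bT).repr y i = coR (bT.coord i) y := by
      intro y i
      induction y with
      | zero => simp
      | add y y' hy hy' => simp only [map_add, Finsupp.add_apply, hy, hy']
      | tmul p t =>
        rw [Algebra.TensorProduct.basis_repr_tmul]
        change p * algebraMap k R (bT.repr t i) = (TensorProduct.rid k R) (p ⊗ₜ (bT.coord i t))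
        rw [TensorProduct.rid_tmul, Algebra.smul_def, mul_comm]
        rfl
    have h5 : (Algebra.TensorProduct.basis R bT).repr y = 0 := Finsupp.ext fun i => by
      rw [h1, hy]; rfl
    exact (LinearEquiv.map_eq_zero_iff _).1 h5
  have hΦ : ∀ j l, Φ (XX j l) = 0 := by
    intro j l
    obtain ⟨e, _, hcof⟩ := exists_cofactors (hΩ j) (hiso j)
    obtain ⟨q, _, hq⟩ := hcof l
    have h1 : ∀ a, Φ (aeval (XX j) (pderiv a (Ω j))) = 0 := by
      intro a
      refine hzero _ fun lam => ?_
      rw [hcoR]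
      exact Ideal.Quotient.eq_zero_iff_mem.2 (Ideal.le_radical (key' j a lam))
    have h2 := congrArg (fun p => Φ (aeval (XX j) p)) hq
    simp only [map_pow, aeval_X, map_sum, map_mul, h1, mul_zero, Finset.sum_const_zero] at h2
    exact pow_eq_zero_iff (n := 2 ^ e) (by positivity) |>.1 h2
  refine finite_of_top S fun i => ?_
  obtain ⟨j, l, α⟩ := i
  obtain ⟨lam, hlam⟩ := LinearMap.exists_extend (b.coord α)
  have h1 := hcoR lam (XX j l)
  rw [hΦ, map_zero] at h1
  have h2 : co I lam (XX j l) = X (j, l, α) := by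
    simp only [XX, map_sum, co_tmul]
    rw [Finset.sum_eq_single α]
    · have h3 : lam (b α : T) = 1 := by
        have h4 := LinearMap.congr_fun hlam (b α)
        rw [Module.Basis.coord_apply, Module.Basis.repr_self, Finsupp.single_eq_same] at h4
        exact h4
      rw [h3, one_smul]
    · intro β _ hβ
      have h3 : lam (b β : T) = 0 := by
        have h4 := LinearMap.congr_fun hlam (b β)
        rw [Module.Basis.coord_apply, Module.Basis.repr_self, Finsupp.single_eq_of_ne (Ne.symm hβ)] at h4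
        exact h4
      rw [h3, zero_smul]
    · intro h
      exact absurd (Finset.mem_univ _) h
  rw [h2] at h1
  exact Ideal.Quotient.eq_zero_iff_mem.1 h1.symm

end main

/-! ### Poisson endomorphisms of the tensor product -/

section poisson

variable {k : Type u} [Field k] {ι : Type} [DecidableEq ι] [Fintype ι]
  {Ω : ι → MvPolynomial (Fin 3) k} {ξ : ι → k}

theorem algHom_ext_gen {φ ψ : Tens Ω ξ →ₐ[k] Tens Ω ξ}
    (h : ∀ j l, φ (gen Ω ξ j l) = ψ (gen Ω ξ j l)) : φ = ψ := by
  have h1 : ∀ j (a : PotQuot (Ω j) (ξ j)),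
      φ (PiTensorProduct.singleAlgHom (R := k) (A := fun i => PotQuot (Ω i) (ξ i)) j a) =
      ψ (PiTensorProduct.singleAlgHom (R := k) (A := fun i => PotQuot (Ω i) (ξ i)) j a) := by
    intro j a
    obtain ⟨p, rfl⟩ := pmk_surjective (Ω j) (ξ j) a
    rw [← aeval_gen, ← aeval_gen]
    congr 2
    funext l
    exact h j l
  refine AlgHom.ext fun x => ?_
  induction x using PiTensorProduct.induction_on with
  | smul_tprod r p =>
    rw [map_smul, map_smul, tprod_eq_prod k (fun i => PotQuot (Ω i) (ξ i)) p, map_prod, map_prod]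
    simp only [h1]
  | add x y hx hy => rw [map_add, map_add, hx, hy]

theorem finite_poisson {n : ι → ℕ} (hn : ∀ i, 4 ≤ n i) (hΩ : ∀ i, (Ω i).IsHomogeneous (n i))
    (hiso : ∀ i, IsIsolatedSingularity (Ω i)) :
    {φ : Tens Ω ξ →ₐ[k] Tens Ω ξ | ∀ a b, φ (tensBr Ω ξ a b) = tensBr Ω ξ (φ a) (φ b)}.Finite := by
  let N := ∑ i, n i
  have hfin := finite_inf (Ω := Ω) (ξ := ξ) N
  have hT : ∀ (R : Type u) [CommRing R] [Algebra k R] [IsReduced R],
      IsReduced (R ⊗[k] Tens Ω ξ) := fun R _ _ _ =>
    isReduced_tensor_pi _ ι (fun i => PotQuot (Ω i) (ξ i))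
      (fun i K _ _ => isReduced_base (hΩ i) (hiso i) (ξ i) K) rfl R
  have h1 := finite_solutions hT (tensBr Ω ξ) hn hΩ hiso
    (⨅ i, Fil Ω ξ i N : Submodule k (Tens Ω ξ))
  refine Set.Finite.of_finite_image (f := fun φ j l => φ (gen Ω ξ j l)) (h1.subset ?_) ?_
  · rintro _ ⟨φ, hφ, rfl⟩
    refine ⟨fun j l => ?_, fun j => ?_, fun j => ?_, fun j => ?_⟩
    · refine (Submodule.mem_iInf _).2 fun i => Fil_mono ?_ (gen_mem hn hΩ hiso φ hφ i j l)
      exact (Nat.sub_le _ _).trans (Finset.single_le_sum (fun _ _ => Nat.zero_le _)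
        (Finset.mem_univ i))
    · rw [aeval_gen, ← hφ, gen, gen, tensBr_single, potBracket_mk, jac_X01]
    · rw [aeval_gen, ← hφ, gen, gen, tensBr_single, potBracket_mk, jac_X12]
    · rw [aeval_gen, ← hφ, gen, gen, tensBr_single, potBracket_mk, jac_X20]
  · intro φ _ ψ _ h
    exact algHom_ext_gen fun j l => congrFun (congrFun h j) l

end poisson

end Pool.Agent.L5helper73.PoiFin
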